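import Pool.Agent.helper1.UN.SpecU

/-!
# Row `VFX` (MP_cf4097_nt): a bounded fundamental domain of the unit lattice
-/

set_option autoImplicit false

open NumberField Complex MeasureTheory NumberField.Units NumberField.Units.dirichletUnitTheorem

open scoped Classical

namespace Pool.Agent.UN

theorem VFX : VFX_stmt := by
  intro K _ _
  let b := Module.Free.chooseBasis ℤ (unitLattice K)
  exact ⟨ZSpan.fundamentalDomain (b.ofZLatticeBasis ℝ (unitLattice K)),
    ZSpan.fundamentalDomain_measurableSet _, ZSpan.fundamentalDomain_isBounded _,
    ZLattice.isAddFundamentalDomain b volume⟩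

end Pool.Agent.UN
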